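import Pool.Agent.Helper92.BW.GoalsA

/-!
# Polytopes of bounded elimination width: packet SCP (convergence of the simplex method)
-/

namespace Pool.Agent.Helper16.BW

open Pool.Agent.Helper92.BW
open Pool.Agent.Helper92

noncomputable section

/-- A nonnegative matrix with row sums one has determinant at most one in absolute value. -/
lemma abs_det_le_one {m : ℕ} (A : Matrix (Fin m) (Fin m) ℝ) (h0 : ∀ i j, 0 ≤ A i j)
    (h1 : ∀ i, ∑ j, A i j = 1) : |A.det| ≤ 1 := by
  rw [← Matrix.det_transpose, Matrix.det_apply']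
  calc |∑ σ : Equiv.Perm (Fin m), ((Equiv.Perm.sign σ : ℤ) : ℝ) * ∏ i, A.transpose (σ i) i|
      ≤ ∑ σ : Equiv.Perm (Fin m), |((Equiv.Perm.sign σ : ℤ) : ℝ) * ∏ i, A.transpose (σ i) i| :=
        Finset.abs_sum_le_sum_abs _ _
    _ = ∑ σ : Equiv.Perm (Fin m), ∏ i, A i (σ i) := by
        refine Finset.sum_congr rfl fun σ _ => ?_
        rw [abs_mul]
        have e1 : |((Equiv.Perm.sign σ : ℤ) : ℝ)| = 1 := by
          rcases Int.units_eq_one_or (Equiv.Perm.sign σ) with h | h <;> rw [h] <;> norm_num
        rw [e1, one_mul, abs_of_nonneg]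
        · rfl
        · exact Finset.prod_nonneg fun i _ => h0 _ _
    _ ≤ ∑ f : Fin m → Fin m, ∏ i, A i (f i) := by
        have hinj : Function.Injective (fun σ : Equiv.Perm (Fin m) => (σ : Fin m → Fin m)) :=
          fun σ τ h => Equiv.ext fun x => congrFun h x
        rw [← Finset.sum_image (s := Finset.univ)
          (g := fun σ : Equiv.Perm (Fin m) => (σ : Fin m → Fin m))
          (f := fun f : Fin m → Fin m => ∏ i, A i (f i)) (fun x _ y _ h => hinj h)]
        refine Finset.sum_le_sum_of_subset_of_nonneg (Finset.subset_univ _) ?_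
        intro f _ _
        exact Finset.prod_nonneg fun i _ => h0 _ _
    _ = ∏ i, ∑ j, A i j := by
        rw [Finset.prod_univ_sum, Fintype.piFinset_univ]
    _ = 1 := by
        simp only [h1, Finset.prod_const_one]

/-- The determinant of a corner simplex. -/
lemma det_corner {d : ℕ} (a : Fin d → ℝ) (s : ℝ) (V : Fin (d + 1) → Fin d → ℝ)
    (hV : ∀ i l, V i l = if i.val = l.val + 1 then a l + s else a l) :
    (FR.hom V).det = s ^ d := by
  set M : Matrix (Fin (d + 1)) (Fin (d + 1)) ℝ :=
    fun i => if i = 0 then Fin.cons 1 a else fun j => if j = i then s else 0 with hM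
  have h1 : (FR.hom V).det = M.det := by
    refine Matrix.det_eq_of_forall_row_eq_smul_add_const (fun i => if i = 0 then 0 else 1) 0 ?_ ?_
    · simp
    · intro i j
      refine Fin.cases ?_ (fun i' => ?_) i
      · refine Fin.cases ?_ (fun j' => ?_) j
        · simp [FR.hom, hM]
        · simp [FR.hom, hM, hV]
      · refine Fin.cases ?_ (fun j' => ?_) j
        · simp [FR.hom, hM, Fin.succ_ne_zero, Fin.succ_ne_zero i' |>.symm]
        · simp only [FR.hom, hM, Fin.cons_succ, hV, Fin.val_succ, Fin.succ_ne_zero, if_false,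
            if_true, one_mul, Fin.succ_inj, Nat.add_right_cancel_iff]
          by_cases h : i' = j'
          · subst h
            simp [add_comm]
          · have h2 : ¬ (i'.val = j'.val) := fun h' => h (Fin.ext h')
            have h3 : ¬ (j' = i') := fun h' => h h'.symm
            simp [h2, h3]
  have h2 : M.BlockTriangular id := by
    intro i j hij
    simp only [id] at hij
    have hi : i ≠ 0 := by
      intro h
      rw [h] at hij
      exact absurd hij (Fin.not_lt_zero j)
    simp only [hM, if_neg hi]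
    rw [if_neg (ne_of_lt hij)]
  rw [h1, Matrix.det_of_upperTriangular h2, Fin.prod_univ_succ]
  simp [hM, Fin.succ_ne_zero]

theorem scp (hC : ScuStmt) : ScpStmt := by
  intro d hd V φ B T hB hV0 hcut ρ y hρ hT
  have hdR : (1 : ℝ) ≤ d := by exact_mod_cast hd
  by_contra hcon
  push Not at hcon
  -- the corners of the cube
  set p : Fin (d + 1) → Fin d → ℝ :=
    fun i l => if i.val = l.val + 1 then y l + ρ else y l with hp
  have hpc : ∀ i l, y l ≤ p i l ∧ p i l ≤ y l + ρ := by
    intro i l
    simp only [hp]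
    split_ifs
    · exact ⟨by linarith, le_rfl⟩
    · exact ⟨le_rfl, by linarith⟩
  have hin : ∀ i, FR.InS (V T) (p i) := fun i => hcon (p i) (hpc i)
  -- determinants
  have hstep : ∀ k < T, |(FR.hom (V (k + 1))).det| ≤
      Real.exp (-(1 / (16 * ((d : ℝ) + 1) ^ 2))) * |(FR.hom (V k)).det| := by
    intro k hk
    obtain ⟨h1, h2, h3⟩ := hcut k hk
    exact (hC d hd (V k) (V (k + 1)) (φ k) h1 h2).2.1 h3
  have hdet : ∀ k ≤ T, |(FR.hom (V k)).det| ≤
      Real.exp (-(k / (16 * ((d : ℝ) + 1) ^ 2))) * (2 * d * B) ^ d := by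
    intro k
    induction k with
    | zero =>
      intro _
      have h1 := det_corner (fun _ : Fin d => -B) (2 * d * B) (V 0) (by
        intro i l
        rw [hV0]
        split_ifs
        · ring
        · rfl)
      rw [h1, abs_of_nonneg (by positivity)]
      simp
    | succ k ih =>
      intro hk
      calc |(FR.hom (V (k + 1))).det|
          ≤ Real.exp (-(1 / (16 * ((d : ℝ) + 1) ^ 2))) * |(FR.hom (V k)).det| := hstep k (by omega)
        _ ≤ Real.exp (-(1 / (16 * ((d : ℝ) + 1) ^ 2))) *
            (Real.exp (-(k / (16 * ((d : ℝ) + 1) ^ 2))) * (2 * d * B) ^ d) :=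
            mul_le_mul_of_nonneg_left (ih (by omega)) (Real.exp_pos _).le
        _ = _ := by
            rw [← mul_assoc, ← Real.exp_add]
            congr 2
            push_cast
            ring
  have hpdet : (FR.hom p).det = ρ ^ d := det_corner y ρ p (fun i l => rfl)
  -- the corners are convex combinations of the vertices
  choose b hb0 hb1 hb using hin
  have hmul : FR.hom p = Matrix.of b * FR.hom (V T) := by
    ext i j
    rw [Matrix.mul_apply]
    refine Fin.cases ?_ (fun l => ?_) j
    · simp only [FR.hom, Fin.cons_zero, mul_one, Matrix.of_apply]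
      exact (hb1 i).symm
    · simp only [FR.hom, Fin.cons_succ, Matrix.of_apply]
      exact hb i l
  have hfin : ρ ^ d ≤ Real.exp (-(T / (16 * ((d : ℝ) + 1) ^ 2))) * (2 * d * B) ^ d := by
    calc ρ ^ d = |(FR.hom p).det| := by rw [hpdet, abs_of_pos (pow_pos hρ d)]
      _ = |(Matrix.of b).det| * |(FR.hom (V T)).det| := by rw [hmul, Matrix.det_mul, abs_mul]
      _ ≤ 1 * |(FR.hom (V T)).det| :=
          mul_le_mul_of_nonneg_right (abs_det_le_one _ hb0 hb1) (abs_nonneg _)
      _ = |(FR.hom (V T)).det| := one_mul _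
      _ ≤ _ := hdet T le_rfl
  have hlog := Real.log_le_log (pow_pos hρ d) hfin
  have h2dB : (0 : ℝ) < 2 * d * B := by positivity
  rw [Real.log_mul (Real.exp_pos _).ne' (pow_pos h2dB d).ne', Real.log_exp, Real.log_pow,
    Real.log_pow] at hlog
  rw [Real.log_div h2dB.ne' hρ.ne'] at hT
  have h8 : (0 : ℝ) < 16 * ((d : ℝ) + 1) ^ 2 := by positivity
  have h9 : (T : ℝ) / (16 * ((d : ℝ) + 1) ^ 2) ≤
      d * (Real.log (2 * d * B) - Real.log ρ) := by
    have : (d : ℝ) * (Real.log (2 * d * B) - Real.log ρ) =
      d * Real.log (2 * d * B) - d * Real.log ρ := by ring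
    linarith
  rw [div_le_iff₀ h8] at h9
  linarith

end

end Pool.Agent.Helper16.BW
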